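import Pool.Agent.Lib.MP_1e8d1a_an.XN.Defs
import Pool.Agent.Lib.MP_1e8d1a_an.XM.A7
import Pool.Agent.Lib.MP_1e8d1a_an.XM.Q0

/-! Smooth bumps and their correlations. -/

open MeasureTheory Set Filter Topology
open scoped ContDiff

namespace Pool.Agent.XN

open Pool.Agent.XM (bset bset_measurable ret)

/-- a fixed bump on `ℝ^D` -/
noncomputable def bump (D : ℕ) : ContDiffBump (0 : Fin D → ℝ) := ⟨1, 2, one_pos, one_lt_two⟩

variable {M : Type} {D : ℕ} {ι : M → Fin D → ℝ}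

/-- a smooth function equal to `1` for `‖ι x - y‖ ≤ ρ` and to `0` for `2 ρ ≤ ‖ι x - y‖` -/
noncomputable def chi (ι : M → Fin D → ℝ) (y : Fin D → ℝ) (ρ : ℝ) (x : M) : ℝ :=
  bump D (ρ⁻¹ • (ι x - y))

theorem chi_nonneg (y : Fin D → ℝ) (ρ : ℝ) (x : M) : 0 ≤ chi ι y ρ x := (bump D).nonneg

theorem chi_le_one (y : Fin D → ℝ) (ρ : ℝ) (x : M) : chi ι y ρ x ≤ 1 := (bump D).le_one

theorem chi_eq_one {y : Fin D → ℝ} {ρ : ℝ} (hρ : 0 < ρ) {x : M} (h : ‖ι x - y‖ ≤ ρ) :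
    chi ι y ρ x = 1 := by
  apply (bump D).one_of_mem_closedBall
  rw [mem_closedBall_zero_iff, norm_smul, norm_inv, Real.norm_of_nonneg hρ.le]
  change ρ⁻¹ * ‖ι x - y‖ ≤ 1
  rw [inv_mul_le_iff₀ hρ, mul_one]
  exact h

theorem chi_eq_zero {y : Fin D → ℝ} {ρ : ℝ} (hρ : 0 < ρ) {x : M} (h : 2 * ρ ≤ ‖ι x - y‖) :
    chi ι y ρ x = 0 := by
  apply (bump D).zero_of_le_dist
  rw [dist_zero_right, norm_smul, norm_inv, Real.norm_of_nonneg hρ.le]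
  change 2 ≤ ρ⁻¹ * ‖ι x - y‖
  rw [inv_mul_eq_div, le_div_iff₀ hρ]
  exact h

theorem chi_continuous [TopologicalSpace M] (hι : Continuous ι) (y : Fin D → ℝ) (ρ : ℝ) :
    Continuous (chi ι y ρ) :=
  (bump D).continuous.comp ((hι.sub continuous_const).const_smul ρ⁻¹)

theorem chi_integrable [TopologicalSpace M] [MeasurableSpace M] [BorelSpace M] (hι : Continuous ι)
    (μ : Measure M) [IsProbabilityMeasure μ] (y : Fin D → ℝ) (ρ : ℝ) :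
    Integrable (chi ι y ρ) μ := by
  refine Integrable.of_bound (chi_continuous hι y ρ).aestronglyMeasurable 1
    (Eventually.of_forall fun x => ?_)
  rw [Real.norm_of_nonneg (chi_nonneg _ _ _)]
  exact chi_le_one _ _ _

/-- The derivatives of the bumps. -/
theorem chi_smB (D l : ℕ) : ∃ B : ℝ, 1 ≤ B ∧ ∀ {M : Type} (ι : M → Fin D → ℝ) (y : Fin D → ℝ)
    {ρ : ℝ}, 0 < ρ → ρ ≤ 1 → SmB ι l (B * (1 / ρ) ^ l) (chi ι y ρ) := by
  have hsm : ∀ n : ℕ, ContDiff ℝ n (bump D : (Fin D → ℝ) → ℝ) := fun n => (bump D).contDiff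
  have hsi : ContDiff ℝ ∞ (bump D : (Fin D → ℝ) → ℝ) := (bump D).contDiff
  have hcs : HasCompactSupport (bump D : (Fin D → ℝ) → ℝ) := (bump D).hasCompactSupport
  have hbd : ∀ j : ℕ, ∃ C : ℝ, ∀ y, ‖iteratedFDeriv ℝ j (bump D : (Fin D → ℝ) → ℝ) y‖ ≤ C :=
    fun j => (hcs.iteratedFDeriv j).exists_bound_of_continuous
      ((hsm j).continuous_iteratedFDeriv le_rfl)
  choose C hC using hbd
  refine ⟨max 1 (∑ j ∈ Finset.range (l + 1), |C j|), le_max_left _ _, ?_⟩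
  intro M ι y ρ hρ hρ1
  refine ⟨fun z => bump D (ρ⁻¹ • (z - y)), ?_, ?_, fun x => rfl⟩
  · have h0 : ContDiff ℝ ∞ fun z : Fin D → ℝ => ρ⁻¹ • (z - y) := by fun_prop
    exact hsi.comp h0
  · intro j hj z
    have e1 : iteratedFDeriv ℝ j (fun z => bump D (ρ⁻¹ • (z - y))) z =
        ρ⁻¹ ^ j • iteratedFDeriv ℝ j (bump D : (Fin D → ℝ) → ℝ) (ρ⁻¹ • (z - y)) := by
      have h1 := iteratedFDeriv_comp_sub (𝕜 := ℝ) (f := fun z : Fin D → ℝ => bump D (ρ⁻¹ • z)) j y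
      have h2 := iteratedFDeriv_comp_const_smul (𝕜 := ℝ) (i := j) ρ⁻¹ (hsm j)
      rw [h1 z]
      rw [congrFun h2 (z - y)]
    rw [e1, norm_smul, norm_pow, norm_inv, Real.norm_of_nonneg hρ.le]
    have h3 : ρ⁻¹ ^ j ≤ ρ⁻¹ ^ l := pow_le_pow_right₀ ((one_le_inv₀ hρ).2 hρ1) hj
    have h4 : ‖iteratedFDeriv ℝ j (bump D : (Fin D → ℝ) → ℝ) (ρ⁻¹ • (z - y))‖ ≤
        max 1 (∑ j ∈ Finset.range (l + 1), |C j|) := by
      refine (hC j _).trans ((le_abs_self _).trans (le_trans ?_ (le_max_right _ _)))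
      exact Finset.single_le_sum (f := fun j => |C j|) (fun i _ => abs_nonneg _)
        (Finset.mem_range.2 (Nat.lt_succ_of_le hj))
    calc ρ⁻¹ ^ j * ‖iteratedFDeriv ℝ j (bump D : (Fin D → ℝ) → ℝ) (ρ⁻¹ • (z - y))‖
        ≤ ρ⁻¹ ^ l * max 1 (∑ j ∈ Finset.range (l + 1), |C j|) := by gcongr
      _ = max 1 (∑ j ∈ Finset.range (l + 1), |C j|) * (1 / ρ) ^ l := by
        rw [one_div, mul_comm]

/-- The correlations of two bumps. -/
def BMix [MeasurableSpace M] (ι : M → Fin D → ℝ) (l : ℕ) (F : M → M) (μ : Measure M) (n : ℕ)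
    (c : ℝ) : Prop :=
  ∀ (y z : Fin D → ℝ) (ρ ρ' : ℝ), 0 < ρ → ρ ≤ 1 → 0 < ρ' → ρ' ≤ 1 →
    |∫ x, chi ι y ρ x * chi ι z ρ' (F^[n] x) ∂μ - (∫ x, chi ι y ρ x ∂μ) * ∫ x, chi ι z ρ' x ∂μ| ≤
      c * (1 / ρ) ^ l * (1 / ρ') ^ l

theorem MixAt.bMix {l : ℕ} {B : ℝ} (hB : ∀ {M : Type} (ι : M → Fin D → ℝ) (y : Fin D → ℝ)
    {ρ : ℝ}, 0 < ρ → ρ ≤ 1 → SmB ι l (B * (1 / ρ) ^ l) (chi ι y ρ)) [MeasurableSpace M]
    {F : M → M} {μ : Measure M} {n : ℕ} {c : ℝ} (h : MixAt ι l F μ n c) :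
    BMix ι l F μ n (B ^ 2 * c) := by
  intro y z ρ ρ' h1 h2 h3 h4
  refine (h _ _ _ _ (hB ι y h1 h2) (hB ι z h3 h4)).trans (le_of_eq ?_)
  ring

theorem BMix.nonneg [MeasurableSpace M] {l : ℕ} {F : M → M} {μ : Measure M} {n : ℕ} {c : ℝ}
    (h : BMix ι l F μ n c) : 0 ≤ c := by
  have h1 := h 0 0 1 1 one_pos le_rfl one_pos le_rfl
  rw [div_one, one_pow, mul_one, mul_one] at h1
  exact (abs_nonneg _).trans h1

theorem BMix.mono [MeasurableSpace M] {l : ℕ} {F : M → M} {μ : Measure M} {n : ℕ} {c c' : ℝ}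
    (h : BMix ι l F μ n c) (hc : c ≤ c') : BMix ι l F μ n c' := by
  intro y z ρ ρ' h1 h2 h3 h4
  refine (h y z ρ ρ' h1 h2 h3 h4).trans ?_
  gcongr

/-- Few short returns before a time of mixing, for the bumps. -/
def FewB [MeasurableSpace M] (ι : M → Fin D → ℝ) (l : ℕ) (F : M → M) (μ : Measure M) (k : ℕ) :
    Prop :=
  ∀ ρ : ℝ, 0 < ρ → ∃ (δ : ℝ) (N : ℕ), 0 < δ ∧ δ ≤ ρ ∧ 1 ≤ N ∧
    ∑ i ∈ Finset.Ico 1 N, μ.real (ret ι F i δ) ≤ ρ ∧ BMix ι l F μ N (ρ * δ ^ k)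

theorem FewMix.fewB [MeasurableSpace M] {l : ℕ} {F : M → M} {μ : Measure M} {k : ℕ}
    (h : FewMix ι l F μ k) : FewB ι l F μ k := by
  obtain ⟨B, hB1, hB⟩ := chi_smB D l
  have hB2 : 1 ≤ B ^ 2 := one_le_pow₀ hB1
  have hB0 : 0 < B ^ 2 := by linarith
  intro ρ hρ
  have hρ' : ρ / B ^ 2 ≤ ρ := div_le_self hρ.le hB2
  obtain ⟨δ, N, h1, h2, h3, h4, h5⟩ := h (ρ / B ^ 2) (by positivity)
  refine ⟨δ, N, h1, h2.trans hρ', h3, h4.trans hρ', ?_⟩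
  have h6 := h5.bMix hB
  have h7 : B ^ 2 * (ρ / B ^ 2 * δ ^ k) = ρ * δ ^ k := by field_simp
  rwa [h7] at h6

/-- `bset y ρ ≤ χ` -/
theorem real_bset_le_integral_chi [TopologicalSpace M] [MeasurableSpace M] [BorelSpace M]
    (hι : Continuous ι) (μ : Measure M) [IsProbabilityMeasure μ] (y : Fin D → ℝ) {ρ : ℝ}
    (hρ : 0 < ρ) : μ.real (bset ι y ρ) ≤ ∫ x, chi ι y ρ x ∂μ := by
  have hm := bset_measurable hι y ρ
  rw [← integral_indicator_one hm]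
  apply integral_mono
  · exact (integrable_const (1 : ℝ)).indicator hm
  · exact chi_integrable hι μ y ρ
  · intro x
    show (bset ι y ρ).indicator 1 x ≤ chi ι y ρ x
    by_cases hx : x ∈ bset ι y ρ
    · rw [indicator_of_mem hx, chi_eq_one hρ (le_of_lt hx)]
      exact le_refl _
    · rw [indicator_of_notMem hx]
      exact chi_nonneg y ρ x

/-- `χ` is at most the indicator of `bset y (2 ρ)`. -/
theorem integral_chi_le [TopologicalSpace M] [MeasurableSpace M] [BorelSpace M]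
    (hι : Continuous ι) (μ : Measure M) [IsProbabilityMeasure μ] (y : Fin D → ℝ) {ρ : ℝ}
    (hρ : 0 < ρ) : ∫ x, chi ι y ρ x ∂μ ≤ μ.real (bset ι y (2 * ρ)) := by
  have hm := bset_measurable hι y (2 * ρ)
  rw [← integral_indicator_one hm]
  apply integral_mono
  · exact chi_integrable hι μ y ρ
  · exact (integrable_const (1 : ℝ)).indicator hm
  · intro x
    show chi ι y ρ x ≤ (bset ι y (2 * ρ)).indicator 1 x
    by_cases hx : x ∈ bset ι y (2 * ρ)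
    · rw [indicator_of_mem hx]
      exact chi_le_one y ρ x
    · rw [indicator_of_notMem hx, chi_eq_zero hρ (not_lt.1 hx)]

end Pool.Agent.XN
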