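import Pool.Agent.Lib.MP_1e8d1a_an.XN.B1
import Pool.Agent.Lib.MP_1e8d1a_an.XM.A4
import Pool.Agent.Lib.MP_1e8d1a_an.XM.A2

/-! The measure of small balls. -/

open MeasureTheory Set Filter Topology

namespace Pool.Agent.XN

open Pool.Agent.XM (bset bset_measurable lip_iter exists_atom)

variable {M : Type} {D : ℕ}

/-- The standing assumptions: `ι` continuous and injective, `F` Lipschitz, `μ` is not a Dirac mass,
and exponentially mixing. -/
structure Sys [TopologicalSpace M] [MeasurableSpace M] (ι : M → Fin D → ℝ) (l : ℕ) (F : M → M)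
    (μ : Measure M) (C θ Λ R : ℝ) : Prop where
  cont : Continuous ι
  contF : Continuous F
  inj : Function.Injective ι
  one_le_C : 1 ≤ C
  θ_pos : 0 < θ
  θ_lt : θ < 1
  two_le_Λ : 2 ≤ Λ
  R_nonneg : 0 ≤ R
  bound : ∀ x, ‖ι x‖ ≤ R
  lip : ∀ x y, ‖ι (F x) - ι (F y)‖ ≤ Λ * ‖ι x - ι y‖
  mix : ∀ n, BMix ι l F μ n (C * θ ^ n)
  nd : ∀ x : M, μ {x} ≠ 1

variable {ι : M → Fin D → ℝ} [TopologicalSpace M] [MeasurableSpace M]
  [BorelSpace M] {F : M → M} {μ : Measure M} [IsProbabilityMeasure μ] {C θ Λ R : ℝ} {l : ℕ}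

theorem le_integral (hι : Continuous ι) {g : M → M} (hg : Continuous g) (y y' : Fin D → ℝ)
    {w v : ℝ} (h : ∀ x ∈ bset ι y v, chi ι y w x = 1 ∧ chi ι y' w (g x) = 1) :
    μ.real (bset ι y v) ≤ ∫ x, chi ι y w x * chi ι y' w (g x) ∂μ := by
  have h1 : Integrable (fun x => chi ι y w x * chi ι y' w (g x)) μ := by
    refine Integrable.of_bound (C := 1) (Continuous.aestronglyMeasurable
      ((chi_continuous hι y w).mul ((chi_continuous hι y' w).comp hg))) ?_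
    refine ae_of_all _ fun x => ?_
    rw [Real.norm_eq_abs, abs_of_nonneg (mul_nonneg (chi_nonneg _ _ _) (chi_nonneg _ _ _))]
    exact mul_le_one₀ (chi_le_one _ _ _) (chi_nonneg _ _ _) (chi_le_one _ _ _)
  have h2 : ∫ x, (bset ι y v).indicator (1 : M → ℝ) x ∂μ = μ.real (bset ι y v) :=
    integral_indicator_one (bset_measurable hι y v)
  rw [← h2]
  refine integral_mono ?_ h1 ?_
  · exact (integrable_const (1 : ℝ)).indicator (bset_measurable hι y v)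
  · intro x
    by_cases hx : x ∈ bset ι y v
    · rw [Set.indicator_of_mem hx]
      obtain ⟨h3, h4⟩ := h x hx
      show (1 : ℝ) ≤ chi ι y w x * chi ι y' w (g x)
      rw [h3, h4, one_mul]
    · rw [Set.indicator_of_notMem hx]
      exact mul_nonneg (chi_nonneg _ _ _) (chi_nonneg _ _ _)

/-- The measure of small balls, one step. -/
theorem Sys.ball_le (h : Sys ι l F μ C θ Λ R) (n : ℕ) {w v κ : ℝ} (hw : 0 < w) (hw1 : w ≤ 1)
    (hv : 2 * Λ ^ n * v ≤ w) (hκ : ∀ y, μ.real (bset ι y (2 * w)) ≤ κ) (y : Fin D → ℝ) :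
    μ.real (bset ι y v) ≤ κ ^ 2 + C * θ ^ n / w ^ (2 * l) := by
  have hC : 0 ≤ C := by linarith [h.one_le_C]
  have hθ := h.θ_pos
  have hΛ : (1 : ℝ) ≤ Λ := by linarith [h.two_le_Λ]
  rcases (bset ι y v).eq_empty_or_nonempty with hemp | ⟨x₀, hx₀⟩
  · rw [hemp, measureReal_empty]
    positivity
  have hx₀' : ‖ι x₀ - y‖ < v := hx₀
  have hv0 : 0 < v := lt_of_le_of_lt (norm_nonneg _) hx₀'
  have hΛn : (1 : ℝ) ≤ Λ ^ n := one_le_pow₀ hΛ
  have hvw : v ≤ w := by nlinarith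
  obtain ⟨y', hy'⟩ : ∃ y' : Fin D → ℝ, y' = ι (F^[n] x₀) := ⟨_, rfl⟩
  have h1 : μ.real (bset ι y v) ≤ ∫ x, chi ι y w x * chi ι y' w (F^[n] x) ∂μ := by
    refine le_integral h.cont (h.contF.iterate n) y y' ?_
    intro x hx
    have hx' : ‖ι x - y‖ < v := hx
    refine ⟨chi_eq_one hw (hx'.le.trans hvw), chi_eq_one hw ?_⟩
    rw [hy']
    have h2 := lip_iter hΛ h.lip n x x₀
    have h3 : ‖ι x - ι x₀‖ ≤ 2 * v := by
      have h4 : ι x - ι x₀ = (ι x - y) - (ι x₀ - y) := by abel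
      rw [h4]
      refine (norm_sub_le _ _).trans ?_
      linarith
    calc ‖ι (F^[n] x) - ι (F^[n] x₀)‖ ≤ Λ ^ n * ‖ι x - ι x₀‖ := h2
      _ ≤ Λ ^ n * (2 * v) := mul_le_mul_of_nonneg_left h3 (by positivity)
      _ = 2 * Λ ^ n * v := by ring
      _ ≤ w := hv
  have h2 := h.mix n y y' w w hw hw1 hw hw1
  have h3 : ∫ x, chi ι y w x ∂μ ≤ κ := (integral_chi_le h.cont μ y hw).trans (hκ y)
  have h4 : ∫ x, chi ι y' w x ∂μ ≤ κ := (integral_chi_le h.cont μ y' hw).trans (hκ y')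
  have h5 : 0 ≤ ∫ x, chi ι y w x ∂μ := integral_nonneg fun x => chi_nonneg _ _ _
  have h6 : 0 ≤ ∫ x, chi ι y' w x ∂μ := integral_nonneg fun x => chi_nonneg _ _ _
  have h7 : (∫ x, chi ι y w x ∂μ) * ∫ x, chi ι y' w x ∂μ ≤ κ ^ 2 := by
    rw [pow_two]
    exact mul_le_mul h3 h4 h6 (h5.trans h3)
  have h8 := (abs_le.1 h2).2
  have h9 : C * θ ^ n * (1 / w) ^ l * (1 / w) ^ l = C * θ ^ n / w ^ (2 * l) := by
    rw [mul_assoc, ← pow_add, ← two_mul, one_div, inv_pow, div_eq_mul_inv]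
  rw [h9] at h8
  linarith

/-- The measure of small balls is uniformly small. -/
theorem Sys.small_balls (h : Sys ι l F μ C θ Λ R) {κ : ℝ} (hκ : 0 < κ) :
    ∃ ρ : ℝ, 0 < ρ ∧ ∀ y, μ.real (bset ι y ρ) ≤ κ := by
  by_contra hcon
  push Not at hcon
  set S : Set ℝ := {a | ∃ ρ : ℝ, 0 < ρ ∧ ∀ y, μ.real (bset ι y ρ) ≤ a} with hS
  have h1S : (1 : ℝ) ∈ S := ⟨1, one_pos, fun y => measureReal_le_one⟩
  have hpos : ∀ a ∈ S, κ < a := by
    rintro a ⟨ρ, hρ, ha⟩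
    obtain ⟨y, hy⟩ := hcon ρ hρ
    exact hy.trans_le (ha y)
  have hbdd : BddBelow S := ⟨κ, fun a ha => (hpos a ha).le⟩
  have hκα : κ ≤ sInf S := le_csInf ⟨1, h1S⟩ fun a ha => (hpos a ha).le
  have hstep : ∀ a ∈ S, sInf S ≤ a ^ 2 := by
    rintro a ⟨ρ, hρ, ha⟩
    obtain ⟨w, hw0, hw1, hwρ⟩ : ∃ w : ℝ, 0 < w ∧ w ≤ 1 ∧ 2 * w ≤ ρ := by
      refine ⟨min (ρ / 2) 1, lt_min (half_pos hρ) one_pos, min_le_right _ _, ?_⟩
      have := min_le_left (ρ / 2) 1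
      linarith
    have hκ' : ∀ y, μ.real (bset ι y (2 * w)) ≤ a := fun y =>
      (measureReal_mono (fun x hx => lt_of_lt_of_le hx hwρ)).trans (ha y)
    have hn : ∀ n : ℕ, sInf S ≤ a ^ 2 + C * θ ^ n / w ^ (2 * l) := by
      intro n
      have hΛ : (0 : ℝ) < Λ ^ n := pow_pos (by linarith [h.two_le_Λ]) n
      have h2Λ : (0 : ℝ) < 2 * Λ ^ n := by linarith
      refine csInf_le hbdd ⟨w / (2 * Λ ^ n), div_pos hw0 h2Λ, fun y => h.ball_le n hw0 hw1 ?_ hκ' y⟩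
      rw [mul_div_cancel₀ _ h2Λ.ne']
    have ht : Tendsto (fun n : ℕ => a ^ 2 + C * θ ^ n / w ^ (2 * l)) atTop
        (𝓝 (a ^ 2 + C * 0 / w ^ (2 * l))) :=
      (((tendsto_pow_atTop_nhds_zero_of_lt_one h.θ_pos.le h.θ_lt).const_mul C).div_const
        (w ^ (2 * l))).const_add (a ^ 2)
    have h5 := ge_of_tendsto' ht hn
    rwa [mul_zero, zero_div, add_zero] at h5
  have hα0 : 0 < sInf S := hκ.trans_le hκα
  have hsq : Real.sqrt (sInf S) ≤ sInf S := le_csInf ⟨1, h1S⟩ fun a ha =>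
    (Real.sqrt_le_left (hκ.trans (hpos a ha)).le).2 (hstep a ha)
  have h1α : 1 ≤ sInf S := by
    have h2 : sInf S ≤ sInf S ^ 2 := (Real.sqrt_le_left hα0.le).1 hsq
    by_contra hlt
    push Not at hlt
    have h3 : sInf S ^ 2 < sInf S := by
      rw [sq]
      calc sInf S * sInf S < 1 * sInf S := mul_lt_mul_of_pos_right hlt hα0
        _ = sInf S := one_mul _
    linarith
  obtain ⟨x, hx⟩ := exists_atom (μ := μ) h.cont h.inj h.bound one_pos (fun ρ hρ => by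
    by_contra hne
    push Not at hne
    have h4 : sInf S ≤ 1 - ρ := csInf_le hbdd ⟨ρ, hρ, hne⟩
    linarith)
  apply h.nd x
  refine le_antisymm prob_le_one ?_
  have h6 := ENNReal.ofReal_le_ofReal hx
  rwa [ENNReal.ofReal_one, Measure.real, ENNReal.ofReal_toReal (measure_ne_top _ _)] at h6

end Pool.Agent.XN
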