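import Pool.Agent.Lib.MP_1e8d1a_an.XN.B1
import Pool.Agent.Lib.MP_1e8d1a_an.XM.Q0

/-! The measure of the set of the returns at the time `n`, for mixing with a rate. -/

open MeasureTheory Set Filter Topology

namespace Pool.Agent.XN

open Pool.Agent.XM (bset bset_measurable ret ret_measurable avg_ball_real)

variable {M : Type} {D : ℕ} {ι : M → Fin D → ℝ} [TopologicalSpace M] [MeasurableSpace M]
  [BorelSpace M] {F : M → M} {μ : Measure M} [IsProbabilityMeasure μ] {l n : ℕ} {c₀ : ℝ}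

/-- The returns at the time `n` near `y`. -/
theorem BMix.ret_at (h : BMix ι l F μ n c₀) (hι : Continuous ι) (hF : Continuous F) {v κ : ℝ}
    (hv : 0 < v) (hv1 : v ≤ 1 / 2) (hκ : ∀ y, μ.real (bset ι y (4 * v)) ≤ κ) (y : Fin D → ℝ) :
    μ.real (ret ι F n v ∩ bset ι y v) ≤
      κ * μ.real (univ ∩ bset ι y (2 * v)) + c₀ / v ^ (2 * l) := by
  have hv2 : 0 < 2 * v := by linarith
  have hcF : Continuous (F^[n]) := hF.iterate n
  have hE : MeasurableSet (ret ι F n v ∩ bset ι y v) :=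
    (ret_measurable hι hF n v).inter (bset_measurable hι y v)
  have hcont : Continuous fun x => chi ι y v x * chi ι y (2 * v) (F^[n] x) :=
    (chi_continuous hι y v).mul ((chi_continuous hι y (2 * v)).comp hcF)
  have hint : Integrable (fun x => chi ι y v x * chi ι y (2 * v) (F^[n] x)) μ := by
    refine Integrable.of_bound hcont.aestronglyMeasurable 1 (Filter.Eventually.of_forall fun x => ?_)
    rw [Real.norm_of_nonneg (mul_nonneg (chi_nonneg _ _ _) (chi_nonneg _ _ _))]
    exact mul_le_one₀ (chi_le_one _ _ _) (chi_nonneg _ _ _) (chi_le_one _ _ _)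
  have h1 : μ.real (ret ι F n v ∩ bset ι y v) ≤
      ∫ x, chi ι y v x * chi ι y (2 * v) (F^[n] x) ∂μ := by
    rw [← integral_indicator_one hE]
    refine integral_mono ((integrable_const (1 : ℝ)).indicator hE) hint fun x => ?_
    by_cases hx : x ∈ ret ι F n v ∩ bset ι y v
    · have hx1 : ‖ι (F^[n] x) - ι x‖ < v := hx.1
      have hx2 : ‖ι x - y‖ < v := hx.2
      have hx3 : ‖ι (F^[n] x) - y‖ ≤ 2 * v := by
        have h5 : ι (F^[n] x) - y = (ι (F^[n] x) - ι x) + (ι x - y) := by abel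
        rw [h5]
        exact (norm_add_le _ _).trans (by linarith)
      rw [Set.indicator_of_mem hx, Pi.one_apply]
      show (1 : ℝ) ≤ chi ι y v x * chi ι y (2 * v) (F^[n] x)
      rw [chi_eq_one hv hx2.le, chi_eq_one hv2 hx3, mul_one]
    · rw [Set.indicator_of_notMem hx]
      exact mul_nonneg (chi_nonneg _ _ _) (chi_nonneg _ _ _)
  have h2 := (abs_le.1 (h y y v (2 * v) hv (by linarith) hv2 (by linarith))).2
  have h3 : ∫ x, chi ι y v x ∂μ ≤ μ.real (bset ι y (2 * v)) :=
    integral_chi_le hι μ y hv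
  have h4 : ∫ x, chi ι y (2 * v) x ∂μ ≤ κ := by
    have h5 := integral_chi_le hι μ y hv2
    rw [show 2 * (2 * v) = 4 * v by ring] at h5
    exact h5.trans (hκ y)
  have h5 : (∫ x, chi ι y v x ∂μ) * ∫ x, chi ι y (2 * v) x ∂μ ≤ μ.real (bset ι y (2 * v)) * κ :=
    mul_le_mul h3 h4 (integral_nonneg fun x => chi_nonneg _ _ _) measureReal_nonneg
  have h6 : c₀ * (1 / v) ^ l * (1 / (2 * v)) ^ l ≤ c₀ / v ^ (2 * l) := by
    have h7 : c₀ * (1 / v) ^ l * (1 / v) ^ l = c₀ / v ^ (2 * l) := by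
      rw [mul_assoc, ← pow_add, ← two_mul, one_div, inv_pow, div_eq_mul_inv]
    have h8 := h.nonneg
    rw [← h7]
    have h9 : 1 / (2 * v) ≤ 1 / v := one_div_le_one_div_of_le hv (by linarith)
    gcongr
  rw [univ_inter]
  linarith

/-- The measure of the returns at the time `n`. -/
theorem BMix.ret_le (h : BMix ι l F μ n c₀) (hι : Continuous ι) (hF : Continuous F) {R : ℝ} (hR : 0 ≤ R)
    (hb : ∀ x, ‖ι x‖ ≤ R) {v κ : ℝ} (hv : 0 < v) (hv1 : v ≤ 1 / 2)
    (hκ : ∀ y, μ.real (bset ι y (4 * v)) ≤ κ) :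
    μ.real (ret ι F n v) ≤ 2 ^ D * κ + ((R + 1) / v) ^ D * (c₀ / v ^ (2 * l)) := by
  have hEm : MeasurableSet (ret ι F n v) := ret_measurable hι hF n v
  have hκ0 : 0 ≤ κ := le_trans measureReal_nonneg (hκ 0)
  have hR1 : 0 < R + 1 := by linarith
  have hv2 : 0 < 2 * v := by linarith
  obtain ⟨i1, e1⟩ := avg_ball_real (μ := μ) hι hEm hv
  obtain ⟨i2, e2⟩ := avg_ball_real (μ := μ) hι MeasurableSet.univ hv2
  have hc : 0 ≤ c₀ / v ^ (2 * l) := div_nonneg h.nonneg (pow_pos hv _).le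
  generalize hcd : c₀ / v ^ (2 * l) = c at hc ⊢
  have hvol : volume (Metric.ball (0 : Fin D → ℝ) (R + 1)) = ENNReal.ofReal ((2 * (R + 1)) ^ D) := by
    rw [Real.volume_pi_ball _ hR1, Fintype.card_fin]
  have i4 : Integrable ((Metric.ball (0 : Fin D → ℝ) (R + 1)).indicator (fun _ => c)) := by
    rw [integrable_indicator_iff Metric.isOpen_ball.measurableSet]
    refine integrableOn_const ?_
    rw [hvol]
    exact ENNReal.ofReal_ne_top
  have e4 : ∫ y, (Metric.ball (0 : Fin D → ℝ) (R + 1)).indicator (fun _ => c) y =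
      (2 * (R + 1)) ^ D * c := by
    rw [integral_indicator Metric.isOpen_ball.measurableSet, setIntegral_const, Measure.real, hvol,
      ENNReal.toReal_ofReal (by positivity), smul_eq_mul]
  have key : ∀ y : Fin D → ℝ, μ.real (ret ι F n v ∩ bset ι y v) ≤
      κ * μ.real (univ ∩ bset ι y (2 * v)) +
        (Metric.ball (0 : Fin D → ℝ) (R + 1)).indicator (fun _ => c) y := by
    intro y
    by_cases hy : y ∈ Metric.ball (0 : Fin D → ℝ) (R + 1)
    · rw [Set.indicator_of_mem hy, ← hcd]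
      exact h.ret_at hι hF hv hv1 hκ y
    · rw [Set.indicator_of_notMem hy, add_zero]
      have he : ret ι F n v ∩ bset ι y v = ∅ := by
        rw [Set.eq_empty_iff_forall_notMem]
        rintro x ⟨-, hx⟩
        have hx' : ‖ι x - y‖ < v := hx
        refine hy ?_
        rw [Metric.mem_ball, dist_zero_right]
        have h1 := hb x
        have h2 : ‖y‖ ≤ ‖ι x‖ + ‖ι x - y‖ := by
          have h3 := norm_sub_le (ι x) (ι x - y)
          rwa [sub_sub_cancel] at h3
        linarith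
      rw [he, measureReal_empty]
      exact mul_nonneg hκ0 measureReal_nonneg
  have hint := integral_mono i1 ((i2.const_mul κ).add i4) key
  have e5 : ∫ y : Fin D → ℝ, (κ * μ.real (univ ∩ bset ι y (2 * v)) +
      (Metric.ball (0 : Fin D → ℝ) (R + 1)).indicator (fun _ => c) y) =
      κ * (2 * (2 * v)) ^ D + (2 * (R + 1)) ^ D * c := by
    rw [integral_add (i2.const_mul κ) i4, integral_const_mul, e2, e4, probReal_univ, mul_one]
  have hint2 : (2 * v) ^ D * μ.real (ret ι F n v) ≤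
      κ * (2 * (2 * v)) ^ D + (2 * (R + 1)) ^ D * c := by
    rw [← e1, ← e5]
    exact hint
  have hpos : 0 < (2 * v) ^ D := pow_pos hv2 D
  refine le_of_mul_le_mul_left (hint2.trans (le_of_eq ?_)) hpos
  have e6 : (2 * v) ^ D * ((R + 1) / v) ^ D = (2 * (R + 1)) ^ D := by
    rw [← mul_pow]
    congr 1
    field_simp
  have e7 : (2 * (2 * v)) ^ D = (2 * v) ^ D * 2 ^ D := by
    rw [mul_pow 2 (2 * v) D, mul_comm]
  rw [e7, ← e6]
  ring

end Pool.Agent.XN
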