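import Pool.Agent.Lib.MP_1e8d1a_an.XN.B1
import Pool.Agent.Lib.MP_1e8d1a_an.XM.A7

/-! Selection of a pair of balls. -/

open MeasureTheory Set Filter Topology

namespace Pool.Agent.XN

open Pool.Agent.XM (bset bset_measurable avg_ball avg_ball_real)

variable {M : Type} {D : ℕ} {ι : M → Fin D → ℝ} [TopologicalSpace M] [MeasurableSpace M]
  [BorelSpace M] {μ : Measure M} [IsProbabilityMeasure μ]

/-- If every `x` near `y` whose image `F^[N] x` is near `z` is bad, then the product of the measures of the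
balls is at most the measure of the bad points plus the error of the mixing. -/
theorem Q1_one (hι : Continuous ι) {F : M → M} (hF : Continuous F) {N l : ℕ} {c₀ : ℝ}
    (hmix : BMix ι l F μ N c₀) {s : ℝ} (hs : 0 < s) (hs1 : s ≤ 1) (Bad : Set M)
    (hBad : MeasurableSet Bad) (y z : Fin D → ℝ)
    (hno : ∀ x, x ∉ Bad → ‖ι x - y‖ < 2 * s → ¬ ‖ι (F^[N] x) - z‖ < 2 * s) :
    μ.real (bset ι y s) * μ.real (bset ι z s) ≤
      c₀ / s ^ (2 * l) + μ.real ((Bad ∩ bset (fun x => ι (F^[N] x)) z (2 * s)) ∩ bset ι y (2 * s)) := by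
  have hFN : Continuous F^[N] := hF.iterate N
  have hι' : Continuous fun x => ι (F^[N] x) := hι.comp hFN
  have h1 := hmix y z s s hs hs1 hs hs1
  have i1 := real_bset_le_integral_chi hι μ y hs
  have i2 := real_bset_le_integral_chi hι μ z hs
  set A : Set M := (Bad ∩ bset (fun x => ι (F^[N] x)) z (2 * s)) ∩ bset ι y (2 * s) with hA
  have hAm : MeasurableSet A :=
    (hBad.inter (bset_measurable hι' z _)).inter (bset_measurable hι y _)
  have h2 : ∫ x, chi ι y s x * chi ι z s (F^[N] x) ∂μ ≤ μ.real A := by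
    rw [← integral_indicator_one hAm]
    refine integral_mono_of_nonneg (Eventually.of_forall fun x =>
      mul_nonneg (chi_nonneg _ _ _) (chi_nonneg _ _ _)) ?_ (Eventually.of_forall fun x => ?_)
    · exact (integrable_const (1 : ℝ)).indicator hAm
    · by_cases hx : x ∈ A
      · simp only [indicator_of_mem hx, Pi.one_apply]
        exact mul_le_one₀ (chi_le_one _ _ _) (chi_nonneg _ _ _) (chi_le_one _ _ _)
      · simp only [indicator_of_notMem hx]
        by_cases hy : ‖ι x - y‖ < 2 * s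
        · by_cases hz : ‖ι (F^[N] x) - z‖ < 2 * s
          · exfalso
            by_cases hb : x ∈ Bad
            · exact hx ⟨⟨hb, hz⟩, hy⟩
            · exact hno x hb hy hz
          · rw [chi_eq_zero (x := F^[N] x) hs (not_lt.mp hz), mul_zero]
        · rw [chi_eq_zero (x := x) hs (not_lt.mp hy), zero_mul]
  have h3 : μ.real (bset ι y s) * μ.real (bset ι z s) ≤
      (∫ x, chi ι y s x ∂μ) * ∫ x, chi ι z s x ∂μ :=
    mul_le_mul i1 i2 measureReal_nonneg (le_trans measureReal_nonneg i1)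
  have h4 : c₀ * (1 / s) ^ l * (1 / s) ^ l = c₀ / s ^ (2 * l) := by
    rw [mul_assoc, ← pow_add, ← two_mul, one_div, inv_pow, div_eq_mul_inv]
  rw [h4] at h1
  have h5 := (abs_le.mp h1).1
  linarith

/-- Selection of the centres. -/
theorem pair_selection (hι : Continuous ι) {F : M → M} (hF : Continuous F) {N l : ℕ} {c₀ : ℝ}
    (hmix : BMix ι l F μ N c₀) {s η : ℝ} (hs : 0 < s) (hs1 : s ≤ 1) (hsη : s < η) (c c' : Fin D → ℝ)
    (hφ : 0 ≤ c₀) {Bad : Set M} (hBad : MeasurableSet Bad)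
    (hnum : (2 * η) ^ D * ((2 * η) ^ D * (c₀ / s ^ (2 * l))) + 2 * ((4 * s) ^ D * ((4 * s) ^ D * μ.real Bad)) <
      ((2 * s) ^ D * μ.real (bset ι c (η - s))) * ((2 * s) ^ D * μ.real (bset ι c' (η - s)))) :
    ∃ y z : Fin D → ℝ, ‖y - c‖ < η ∧ ‖z - c'‖ < η ∧
      (∃ x, x ∉ Bad ∧ ‖ι x - y‖ < 2 * s ∧ ‖ι (F^[N] x) - z‖ < 2 * s) ∧
      ∃ x, x ∉ Bad ∧ ‖ι x - z‖ < 2 * s ∧ ‖ι (F^[N] x) - y‖ < 2 * s := by
  by_contra hcon
  have hFN : Continuous F^[N] := hF.iterate N
  have hι' : Continuous fun x => ι (F^[N] x) := hι.comp hFN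
  set ι' : M → Fin D → ℝ := fun x => ι (F^[N] x) with hι'def
  set e : ℝ := c₀ / s ^ (2 * l) with he
  have he0 : 0 ≤ e := by positivity
  set T : Set M := bset ι c (η - s) with hT
  set T' : Set M := bset ι c' (η - s) with hT'
  have hTm : MeasurableSet T := bset_measurable hι _ _
  have hTm' : MeasurableSet T' := bset_measurable hι _ _
  have h2s : (0 : ℝ) < 2 * s := by linarith
  have h4s : (2 * (2 * s) : ℝ) = 4 * s := by ring
  have key : ∀ y z : Fin D → ℝ, ‖y - c‖ < η → ‖z - c'‖ < η →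
      μ.real (bset ι y s) * μ.real (bset ι z s) ≤ e +
        μ.real ((Bad ∩ bset ι' z (2 * s)) ∩ bset ι y (2 * s)) +
        μ.real ((Bad ∩ bset ι z (2 * s)) ∩ bset ι' y (2 * s)) := by
    intro y z hy hz
    by_cases h1 : ∃ x, x ∉ Bad ∧ ‖ι x - y‖ < 2 * s ∧ ‖ι (F^[N] x) - z‖ < 2 * s
    · have h2 : ∀ x, x ∉ Bad → ‖ι x - z‖ < 2 * s → ¬ ‖ι (F^[N] x) - y‖ < 2 * s :=
        fun x hx hxz hxy => hcon ⟨y, z, hy, hz, h1, x, hx, hxz, hxy⟩
      have h3 := Q1_one hι hF hmix hs hs1 Bad hBad z y h2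
      have h4 : (Bad ∩ bset ι' y (2 * s)) ∩ bset ι z (2 * s) =
          (Bad ∩ bset ι z (2 * s)) ∩ bset ι' y (2 * s) := by
        rw [inter_assoc, inter_assoc, inter_comm (bset ι' y (2 * s))]
      have h5 : 0 ≤ μ.real ((Bad ∩ bset ι' z (2 * s)) ∩ bset ι y (2 * s)) := measureReal_nonneg
      rw [mul_comm] at h3
      have h3' : μ.real (bset ι y s) * μ.real (bset ι z s) ≤
          e + μ.real ((Bad ∩ bset ι' y (2 * s)) ∩ bset ι z (2 * s)) := h3
      rw [h4] at h3'
      linarith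
    · have h2 : ∀ x, x ∉ Bad → ‖ι x - y‖ < 2 * s → ¬ ‖ι (F^[N] x) - z‖ < 2 * s :=
        fun x hx hxy hxz => h1 ⟨x, hx, hxy, hxz⟩
      have h3 := Q1_one hι hF hmix hs hs1 Bad hBad y z h2
      have h5 : 0 ≤ μ.real ((Bad ∩ bset ι z (2 * s)) ∩ bset ι' y (2 * s)) := measureReal_nonneg
      have h3' : μ.real (bset ι y s) * μ.real (bset ι z s) ≤
          e + μ.real ((Bad ∩ bset ι' z (2 * s)) ∩ bset ι y (2 * s)) := h3
      linarith
  -- the same for all centres
  have hz0 : ∀ (c : Fin D → ℝ) (y : Fin D → ℝ), y ∉ Metric.ball c η →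
      bset ι c (η - s) ∩ bset ι y s = ∅ := by
    intro c y hy
    ext x
    simp only [mem_inter_iff, mem_empty_iff_false, iff_false, not_and]
    intro h1 h2
    have h1' : ‖ι x - c‖ < η - s := h1
    have h2' : ‖ι x - y‖ < s := h2
    apply hy
    rw [Metric.mem_ball, dist_eq_norm]
    have h3 : y - c = (ι x - c) - (ι x - y) := by abel
    rw [h3]
    exact lt_of_le_of_lt (norm_sub_le _ _) (by linarith)
  have all : ∀ y z : Fin D → ℝ, μ.real (T ∩ bset ι y s) * μ.real (T' ∩ bset ι z s) ≤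
      (Metric.ball c η).indicator (fun _ => (Metric.ball c' η).indicator (fun _ => e) z) y +
        μ.real ((Bad ∩ bset ι' z (2 * s)) ∩ bset ι y (2 * s)) +
        μ.real ((Bad ∩ bset ι z (2 * s)) ∩ bset ι' y (2 * s)) := by
    intro y z
    have p1 : 0 ≤ μ.real ((Bad ∩ bset ι' z (2 * s)) ∩ bset ι y (2 * s)) := measureReal_nonneg
    have p2 : 0 ≤ μ.real ((Bad ∩ bset ι z (2 * s)) ∩ bset ι' y (2 * s)) := measureReal_nonneg
    by_cases hy : y ∈ Metric.ball c η
    · rw [indicator_of_mem hy]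
      by_cases hz : z ∈ Metric.ball c' η
      · rw [indicator_of_mem hz]
        have h1 := key y z (by rwa [Metric.mem_ball, dist_eq_norm] at hy)
          (by rwa [Metric.mem_ball, dist_eq_norm] at hz)
        refine le_trans (mul_le_mul (measureReal_mono inter_subset_right)
          (measureReal_mono inter_subset_right) measureReal_nonneg measureReal_nonneg) h1
      · rw [indicator_of_notMem hz, hT', hz0 c' z hz, measureReal_empty, mul_zero]
        linarith
    · rw [indicator_of_notMem hy, hT, hz0 c y hy, measureReal_empty, zero_mul]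
      linarith
  -- integrate over y
  have vol : ∀ c : Fin D → ℝ, (volume : Measure (Fin D → ℝ)).real (Metric.ball c η) = (2 * η) ^ D := by
    intro c
    have hη0 : 0 < η := by linarith
    unfold Measure.real
    rw [Real.volume_pi_ball c hη0, ENNReal.toReal_ofReal (by positivity),
      Fintype.card_fin]
  have ind : ∀ (c : Fin D → ℝ) (K : ℝ), Integrable ((Metric.ball c η).indicator (fun _ => K))
      (volume : Measure (Fin D → ℝ)) ∧
      ∫ y, (Metric.ball c η).indicator (fun _ => K) y = (2 * η) ^ D * K := by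
    intro c K
    constructor
    · rw [integrable_indicator_iff measurableSet_ball]
      exact integrableOn_const (measure_ball_lt_top.ne)
    · rw [integral_indicator_const _ measurableSet_ball, vol c, smul_eq_mul]
  have hy : ∀ z : Fin D → ℝ, ((2 * s) ^ D * μ.real T) * μ.real (T' ∩ bset ι z s) ≤
      (2 * η) ^ D * (Metric.ball c' η).indicator (fun _ => e) z +
        (4 * s) ^ D * μ.real (Bad ∩ bset ι' z (2 * s)) +
        (4 * s) ^ D * μ.real (Bad ∩ bset ι z (2 * s)) := by
    intro z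
    obtain ⟨a1, a2⟩ := avg_ball_real (μ := μ) hι hTm hs
    obtain ⟨b1, b2⟩ := avg_ball_real (μ := μ) hι (hBad.inter (bset_measurable hι' z (2 * s))) h2s
    obtain ⟨d1, d2⟩ := avg_ball_real (μ := μ) hι' (hBad.inter (bset_measurable hι z (2 * s))) h2s
    obtain ⟨f1, f2⟩ := ind c ((Metric.ball c' η).indicator (fun _ => e) z)
    rw [h4s] at b2 d2
    have h1 := integral_mono (a1.mul_const (μ.real (T' ∩ bset ι z s))) ((f1.add b1).add d1)
      (fun y => all y z)
    rw [integral_mul_const, a2, integral_add' (f1.add b1) d1, integral_add' f1 b1, f2, b2, d2] at h1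
    exact h1
  -- integrate over z
  obtain ⟨a1, a2⟩ := avg_ball_real (μ := μ) hι hTm' hs
  obtain ⟨b1, b2⟩ := avg_ball_real (μ := μ) hι' hBad h2s
  obtain ⟨d1, d2⟩ := avg_ball_real (μ := μ) hι hBad h2s
  obtain ⟨f1, f2⟩ := ind c' e
  rw [h4s] at b2 d2
  have h1 := integral_mono (a1.const_mul ((2 * s) ^ D * μ.real T))
    (((f1.const_mul ((2 * η) ^ D)).add (b1.const_mul ((4 * s) ^ D))).add
      (d1.const_mul ((4 * s) ^ D))) hy
  rw [integral_const_mul, a2, integral_add' ((f1.const_mul ((2 * η) ^ D)).add (b1.const_mul ((4 * s) ^ D)))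
      (d1.const_mul ((4 * s) ^ D)), integral_add' (f1.const_mul ((2 * η) ^ D)) (b1.const_mul ((4 * s) ^ D)),
    integral_const_mul, integral_const_mul, integral_const_mul, f2, b2, d2] at h1
  linarith

end Pool.Agent.XN
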