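import Pool.Agent.Lib.MP_1e8d1a_an.XN.B3
import Pool.Agent.Lib.MP_1e8d1a_an.XN.B5

/-! Exponential mixing gives few short returns. -/

open MeasureTheory Set Filter Topology

namespace Pool.Agent.XN

open Pool.Agent.XM (bset ret ret_mono ret_subset)

/-- `a` close to `1` -/
theorem exists_a (D : ℕ) {θ : ℝ} (h0 : 0 < θ) (h1 : θ < 1) : ∃ a : ℝ, 0 < a ∧ a < 1 ∧ θ < a ^ D := by
  have h2 : Tendsto (fun a : ℝ => a ^ D) (𝓝[<] 1) (𝓝 (1 ^ D)) :=
    ((continuous_pow D).tendsto 1).mono_left nhdsWithin_le_nhds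
  rw [one_pow] at h2
  have h3 : ∀ᶠ a : ℝ in 𝓝[<] 1, θ < a ^ D := h2.eventually (lt_mem_nhds h1)
  have h4 : ∀ᶠ a : ℝ in 𝓝[<] 1, a < 1 := eventually_mem_nhdsWithin
  have h5 : ∀ᶠ a : ℝ in 𝓝[<] 1, 0 < a :=
    (lt_mem_nhds one_pos).filter_mono nhdsWithin_le_nhds
  obtain ⟨a, ha1, ha2, ha3⟩ := (h3.and (h4.and h5)).exists
  exact ⟨a, ha3, ha2, ha1⟩

/-- The error tends to zero. -/
theorem small_error (D l : ℕ) {C θ R a : ℝ} (h0 : 0 < θ) (ha : 0 < a) (hθ : θ < a ^ (D + 2 * l)) (ε : ℝ)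
    (hε : 0 < ε) (B : ℕ) :
    ∀ᶠ m : ℕ in atTop,
      ((B * m : ℕ) : ℝ) * (((R + 1) / a ^ m) ^ D * (C * θ ^ m / (a ^ m) ^ (2 * l))) ≤ ε := by
  have ha2 : 0 < a ^ (D + 2 * l) := pow_pos ha _
  have hq0 : 0 ≤ θ / a ^ (D + 2 * l) := (div_pos h0 ha2).le
  have hq1 : θ / a ^ (D + 2 * l) < 1 := (div_lt_one ha2).2 hθ
  have h1 := tendsto_self_mul_const_pow_of_lt_one hq0 hq1
  have h2 : Tendsto (fun m : ℕ => ((B : ℝ) * C * (R + 1) ^ D) * ((m : ℝ) * (θ / a ^ (D + 2 * l)) ^ m))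
      atTop (𝓝 0) := by
    have h3 := h1.const_mul ((B : ℝ) * C * (R + 1) ^ D)
    rwa [mul_zero] at h3
  filter_upwards [h2.eventually (Iio_mem_nhds hε)] with m hm
  have h4 : ((B * m : ℕ) : ℝ) * (((R + 1) / a ^ m) ^ D * (C * θ ^ m / (a ^ m) ^ (2 * l))) =
      ((B : ℝ) * C * (R + 1) ^ D) * ((m : ℝ) * (θ / a ^ (D + 2 * l)) ^ m) := by
    have e1 : (a ^ (D + 2 * l)) ^ m = (a ^ m) ^ D * (a ^ m) ^ (2 * l) := by
      rw [← pow_mul, ← pow_mul, ← pow_mul, ← pow_add]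
      congr 1
      ring
    have e2 : (a ^ m) ^ D ≠ 0 := pow_ne_zero _ (pow_ne_zero _ ha.ne')
    have e3 : (a ^ m) ^ (2 * l) ≠ 0 := pow_ne_zero _ (pow_ne_zero _ ha.ne')
    rw [div_pow, div_pow, e1]
    push_cast
    field_simp
  rw [h4]
  exact (Set.mem_Iio.1 hm).le

variable {M : Type} {D : ℕ} {ι : M → Fin D → ℝ} [TopologicalSpace M] [MeasurableSpace M]
  [BorelSpace M] {F : M → M} {μ : Measure M} [IsProbabilityMeasure μ] {C θ Λ R : ℝ} {l : ℕ}

/-- **Few short returns, exponential rate**, for every invariant probability which is not a Dirac mass. -/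
theorem Sys.few (h : Sys ι l F μ C θ Λ R) (k : ℕ) : FewB ι l F μ k := by
  intro ρ hρ
  obtain ⟨a, ha, ha1, hθa⟩ := exists_a (D + 2 * l) h.θ_pos h.θ_lt
  have hθ0 := h.θ_pos
  have hC1 := h.one_le_C
  have hΛ : (2 : ℝ) ≤ Λ := h.two_le_Λ
  have hΛ0 : (0 : ℝ) < Λ := by linarith
  have hΛ1 : (1 : ℝ) ≤ Λ := by linarith
  have hθa2 : θ < a ^ (2 * l) := hθa.trans_le (pow_le_pow_of_le_one ha.le ha1.le (by omega))
  set u : ℝ := a / (4 * Λ ^ 2) with hu
  have hu0 : 0 < u := by positivity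
  have hua : u ≤ a := div_le_self ha.le (by nlinarith)
  have hu1 : u < 1 := hua.trans_lt ha1
  obtain ⟨B₀, hB₀⟩ := exists_pow_lt_of_lt_one (show (0 : ℝ) < u ^ (k + 1) by positivity) h.θ_lt
  set B : ℕ := B₀ + 2 with hB
  have hθB : θ ^ B ≤ u ^ (k + 1) :=
    (pow_le_pow_of_le_one hθ0.le h.θ_lt.le (by omega)).trans hB₀.le
  have hB0 : (0 : ℝ) < B := by
    have : 0 < B := by omega
    exact_mod_cast this
  set κ₀ : ℝ := ρ / (2 * (B * 2 ^ D)) with hκ₀
  have hκ₀0 : 0 < κ₀ := by positivity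
  have hum : Tendsto (fun m : ℕ => u ^ m) atTop (𝓝 0) :=
    tendsto_pow_atTop_nhds_zero_of_lt_one hu0.le hu1
  have ham : Tendsto (fun m : ℕ => a ^ m) atTop (𝓝 0) :=
    tendsto_pow_atTop_nhds_zero_of_lt_one ha.le ha1
  have e1 := small_error D l (C := C) (R := R) h.θ_pos ha hθa (ρ / 2) (by positivity) B
  have e2 : ∀ᶠ m : ℕ in atTop, u ^ m < min ρ (ρ / C) :=
    hum.eventually_lt_const (lt_min hρ (by positivity))
  have e3 : ∀ᶠ m : ℕ in atTop, a ^ m < 1 / 2 := ham.eventually_lt_const (by norm_num)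
  obtain ⟨m₀, hm₀⟩ := eventually_atTop.1 (e1.and (e2.and e3))
  obtain ⟨m, hm, hball⟩ := h.exists_time ha ha1 hθa2 hκ₀0 (max m₀ 1)
  obtain ⟨e1m, e2m, e3m⟩ := hm₀ m ((le_max_left _ _).trans hm)
  have hm1 : 1 ≤ m := (le_max_right _ _).trans hm
  have hmR : (0 : ℝ) < m := by exact_mod_cast hm1
  set v : ℝ := a ^ m with hv
  set t : ℝ := u ^ m with ht
  have hv0 : 0 < v := by positivity
  have ht0 : 0 < t := by positivity
  have htv : t ≤ v := pow_le_pow_left₀ hu0.le hua m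
  obtain ⟨h1, h2⟩ : t < ρ ∧ t < ρ / C := by simpa only [lt_min_iff] using e2m
  set κ : ℝ := κ₀ / m with hκ
  have hκb : ∀ y, μ.real (bset ι y (4 * v)) ≤ κ := by
    intro y
    rw [hκ, le_div_iff₀ hmR, mul_comm]
    exact hball y
  have hmκ : (m : ℝ) * κ = κ₀ := by
    rw [hκ]
    field_simp
  have hκ0 : 0 ≤ κ := by positivity
  have htm : 2 * (m : ℝ) * Λ ^ (2 * m) * t ≤ v := by
    have k1 : Λ ^ (2 * m) * t = (a / 4) ^ m := by
      rw [ht, pow_mul, ← mul_pow, hu]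
      congr 1
      field_simp
    have k2 : (2 : ℝ) * m ≤ 4 ^ m := by
      have : 2 * m ≤ 4 ^ m := by
        clear * - hm1
        induction m, hm1 using Nat.le_induction with
        | base => norm_num
        | succ k hk ih =>
          rw [pow_succ]
          omega
      exact_mod_cast this
    calc 2 * (m : ℝ) * Λ ^ (2 * m) * t = 2 * m * (Λ ^ (2 * m) * t) := by ring
      _ = 2 * m * (a / 4) ^ m := by rw [k1]
      _ = (2 * m) * (v / 4 ^ m) := by rw [hv, div_pow]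
      _ ≤ 4 ^ m * (v / 4 ^ m) := mul_le_mul_of_nonneg_right k2 (by positivity)
      _ = v := by field_simp
  -- one time
  have hRv : 0 ≤ (R + 1) / v := div_nonneg (by linarith [h.R_nonneg]) hv0.le
  set X : ℝ := 2 ^ D * κ + ((R + 1) / v) ^ D * (C * θ ^ m / v ^ (2 * l)) with hX
  have hX0 : 0 ≤ X := by positivity
  have hlate : ∀ n : ℕ, m ≤ n → μ.real (ret ι F n v) ≤ X := by
    intro n hn
    refine ((h.mix n).ret_le h.cont h.contF h.R_nonneg h.bound hv0 e3m.le hκb).trans ?_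
    have k1 : θ ^ n ≤ θ ^ m := pow_le_pow_of_le_one hθ0.le h.θ_lt.le hn
    rw [hX]
    gcongr
  have hone : ∀ i ∈ Finset.Ico 1 (B * m), μ.real (ret ι F i t) ≤ X := by
    intro i hi
    rw [Finset.mem_Ico] at hi
    by_cases him : m ≤ i
    · exact (measureReal_mono (ret_mono htv)).trans (hlate i him)
    · have k1 : m ≤ (m / i + 1) * i := by
        have k2 : m < m / i * i + i := Nat.lt_div_mul_add hi.1
        have k3 : (m / i + 1) * i = m / i * i + i := by ring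
        omega
      exact (measureReal_mono (ret_subset hΛ1 h.lip hi.1 (not_le.mp him) htm)).trans (hlate _ k1)
  refine ⟨t, B * m, ht0, h1.le, Nat.one_le_iff_ne_zero.2 (Nat.mul_ne_zero (by omega) (by omega)), ?_, ?_⟩
  · calc ∑ i ∈ Finset.Ico 1 (B * m), μ.real (ret ι F i t)
        ≤ ∑ _i ∈ Finset.Ico 1 (B * m), X := Finset.sum_le_sum hone
      _ = ((Finset.Ico 1 (B * m)).card : ℝ) * X := by rw [Finset.sum_const, nsmul_eq_mul]
      _ ≤ ((B * m : ℕ) : ℝ) * X := by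
          refine mul_le_mul_of_nonneg_right ?_ hX0
          have : (Finset.Ico 1 (B * m)).card ≤ B * m := by
            rw [Nat.card_Ico]
            omega
          exact_mod_cast this
      _ = B * 2 ^ D * ((m : ℝ) * κ) +
          ((B * m : ℕ) : ℝ) * (((R + 1) / v) ^ D * (C * θ ^ m / v ^ (2 * l))) := by
          rw [hX]
          push_cast
          ring
      _ ≤ ρ / 2 + ρ / 2 := by
          refine add_le_add (le_of_eq ?_) e1m
          rw [hmκ, hκ₀]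
          field_simp
      _ = ρ := by ring
  · refine (h.mix (B * m)).mono ?_
    have k1 : θ ^ (B * m) ≤ t * t ^ k := by
      rw [pow_mul]
      calc (θ ^ B) ^ m ≤ (u ^ (k + 1)) ^ m := pow_le_pow_left₀ (by positivity) hθB m
        _ = t * t ^ k := by
          rw [ht, ← pow_mul, ← pow_mul, ← pow_add]
          congr 1
          ring
    have k2 : C * t ≤ ρ := by
      rw [lt_div_iff₀ (by linarith)] at h2
      linarith
    calc C * θ ^ (B * m) ≤ C * (t * t ^ k) := mul_le_mul_of_nonneg_left k1 (by linarith)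
      _ = (C * t) * t ^ k := by ring
      _ ≤ ρ * t ^ k := mul_le_mul_of_nonneg_right k2 (by positivity)

end Pool.Agent.XN
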