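import Mathlib

/-! Mixing for smooth observables: definitions. -/

open MeasureTheory Set Filter Topology
open scoped ContDiff

namespace Pool.Agent.XN

variable {M : Type} {D : ℕ}

/-- `f = a ∘ ι` for a smooth function `a` on `ℝ^D` whose derivatives of order `≤ l` are bounded by
`K`. -/
def SmB (ι : M → Fin D → ℝ) (l : ℕ) (K : ℝ) (f : M → ℝ) : Prop :=
  ∃ a : (Fin D → ℝ) → ℝ, ContDiff ℝ ∞ a ∧ (∀ j ≤ l, ∀ z, ‖iteratedFDeriv ℝ j a z‖ ≤ K) ∧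
    ∀ x, f x = a (ι x)

/-- The correlations at the time `n` of functions whose derivatives of order `≤ l` are bounded by
`K` and `L` are at most `c K L`. -/
def MixAt [MeasurableSpace M] (ι : M → Fin D → ℝ) (l : ℕ) (F : M → M) (μ : Measure M) (n : ℕ)
    (c : ℝ) : Prop :=
  ∀ (f g : M → ℝ) (K L : ℝ), SmB ι l K f → SmB ι l L g →
    |∫ x, f x * g (F^[n] x) ∂μ - (∫ x, f x ∂μ) * ∫ x, g x ∂μ| ≤ c * K * L

/-- Mixing at the scale `δ^k` at a time before which few points return to their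
`δ`-neighbourhood. -/
def FewMix [MeasurableSpace M] (ι : M → Fin D → ℝ) (l : ℕ) (F : M → M) (μ : Measure M) (k : ℕ) :
    Prop :=
  ∀ ρ : ℝ, 0 < ρ → ∃ (δ : ℝ) (N : ℕ), 0 < δ ∧ δ ≤ ρ ∧ 1 ≤ N ∧
    ∑ i ∈ Finset.Ico 1 N, μ.real {x | ‖ι (F^[i] x) - ι x‖ < δ} ≤ ρ ∧ MixAt ι l F μ N (ρ * δ ^ k)

end Pool.Agent.XN
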