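import Pool.Agent.Lib.MP_1e8d1a_an.XN.B7
import Pool.Agent.Lib.MP_1e8d1a_an.XN.B8
import Pool.Agent.Lib.MP_1e8d1a_an.XM.Main

/-! Mixing diffeomorphisms (smooth observables) can be closed at the points of the support. -/

set_option linter.unusedSectionVars false

open scoped ContDiff Manifold Topology
open Filter MeasureTheory

namespace Pool.Agent.XN

open Pool.Agent.SC
open Pool.Agent.XM (IsEmb bset support_pos fixed_of_support ball_centre closable_of_exchange)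

variable {E : Type} [NormedAddCommGroup E] [NormedSpace ℝ E] [FiniteDimensional ℝ E]
  {H : Type} [TopologicalSpace H] {I : ModelWithCorners ℝ E H} [I.Boundaryless]
  {W : Type} [TopologicalSpace W] [T2Space W] [ChartedSpace H W] [IsManifold I ∞ W] [CompactSpace W]

/-- **Closing for mixing maps with few short returns.** -/
theorem closable_of_few [MeasurableSpace W] [BorelSpace W] {D : ℕ} {ι : W → Fin D → ℝ}
    (hι : IsEmb I ι) {r : ℕ∞} (hr : 1 ≤ r) (F : W ≃ₘ^r⟮I, I⟯ W) (μ : Measure W)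
    [IsProbabilityMeasure μ] (hinv : MeasurePreserving F μ μ) (p q : W) (hpq : p ≠ q)
    (hp : ∀ O ∈ 𝓝 p, 0 < μ O) (hq : ∀ O ∈ 𝓝 q, 0 < μ O)
    (hfew : ∀ k : ℕ, (k : ℕ∞) ≤ r → ∃ l : ℕ, FewB ι l F μ ((k + 1) * (2 * D + 2 * l))) :
    Closable I F p := by
  have hc : Continuous ι := hι.smooth.continuous
  refine closable_of_exchange hι hr F p q hpq fun k ε η hk hε hη => ?_
  obtain ⟨l, hl⟩ := hfew k hk
  exact core_two hc F.continuous hinv k l hl (ι p) (ι q) (support_pos hc μ hp)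
    (support_pos hc μ hq) hε hη

/-- The constants of a `C¹` map of a compact manifold. -/
theorem exists_constants {D : ℕ} {ι : W → Fin D → ℝ} (hι : IsEmb I ι) {r : ℕ∞} (hr : 1 ≤ r)
    (F : W ≃ₘ^r⟮I, I⟯ W) : ∃ Λ R : ℝ, 2 ≤ Λ ∧ 0 ≤ R ∧ (∀ x, ‖ι x‖ ≤ R) ∧
      ∀ x y, ‖ι (F x) - ι (F y)‖ ≤ Λ * ‖ι x - ι y‖ := by
  have hr' : (1 : WithTop ℕ∞) ≤ (r : WithTop ℕ∞) := by exact_mod_cast hr
  have hc : Continuous ι := hι.smooth.continuous
  obtain ⟨Λ, hΛ, hl⟩ := hι.lip (F := F) (F.contMDiff_toFun.of_le hr')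
  obtain ⟨R, hR⟩ : ∃ R : ℝ, ∀ x, ‖ι x‖ ≤ R := by
    obtain ⟨R, hR⟩ := (isCompact_range hc).isBounded.exists_norm_le
    exact ⟨R, fun x => hR _ ⟨x, rfl⟩⟩
  exact ⟨Λ, max R 0, hΛ, le_max_right _ _, fun x => (hR x).trans (le_max_left _ _), hl⟩

/-- Few short returns for an exponential rate. -/
theorem few_of_exp [MeasurableSpace W] [BorelSpace W] {D : ℕ} {ι : W → Fin D → ℝ}
    (hι : IsEmb I ι) {r : ℕ∞} (hr : 1 ≤ r) (F : W ≃ₘ^r⟮I, I⟯ W) (μ : Measure W)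
    [IsProbabilityMeasure μ] {l : ℕ} {C θ : ℝ} (h0 : 0 < θ) (h1 : θ < 1)
    (hmix : ∀ n, MixAt ι l F μ n (C * θ ^ n)) (hnd : ∀ x, μ {x} ≠ 1) (k : ℕ) :
    FewB ι l F μ k := by
  obtain ⟨Λ, R, hΛ, hR, hb, hl⟩ := exists_constants hι hr F
  obtain ⟨B, hB1, hB⟩ := chi_smB D l
  have hs : Sys ι l F μ (max (B ^ 2 * C) 1) θ Λ R :=
    { cont := hι.smooth.continuous
      contF := F.continuous
      inj := hι.inj
      one_le_C := le_max_right _ _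
      θ_pos := h0
      θ_lt := h1
      two_le_Λ := hΛ
      R_nonneg := hR
      bound := hb
      lip := hl
      mix := fun n => ((hmix n).bMix hB).mono (by
        rw [← mul_assoc]
        exact mul_le_mul_of_nonneg_right (le_max_left _ _) (pow_nonneg h0.le _))
      nd := hnd }
  exact hs.few k

/-- Few short returns for a polynomial rate. -/
theorem few_of_power [MeasurableSpace W] [BorelSpace W] {D : ℕ} {ι : W → Fin D → ℝ}
    (hι : IsEmb I ι) {r : ℕ∞} (hr : 1 ≤ r) (F : W ≃ₘ^r⟮I, I⟯ W) (μ : Measure W)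
    [IsProbabilityMeasure μ] {l : ℕ} {d C₁ κ C : ℝ} (hd : 0 < d)
    (hball : ∀ (y : Fin D → ℝ) (ρ : ℝ), 0 < ρ → ρ ≤ 1 → μ.real (bset ι y ρ) ≤ C₁ * ρ ^ d)
    (k : ℕ) (h1 : D + 2 * l + d < κ * d) (h2 : (k : ℝ) < κ * d)
    (hmix : ∀ n : ℕ, MixAt ι l F μ n (C * ((n : ℝ) + 1) ^ (-κ))) : FewB ι l F μ k := by
  obtain ⟨Λ, R, hΛ, hR, hb, hl⟩ := exists_constants hι hr F
  obtain ⟨B, hB1, hB⟩ := chi_smB D l
  have hmix' : ∀ n : ℕ, BMix ι l F μ n (B ^ 2 * (C * ((n : ℝ) + 1) ^ (-κ))) := fun n =>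
    (hmix n).bMix hB
  have hC : 0 ≤ B ^ 2 * C := by
    have h3 := (hmix' 0).nonneg
    simpa using h3
  have hD : (0 : ℝ) ≤ D := Nat.cast_nonneg D
  have hl0 : (0 : ℝ) ≤ l := Nat.cast_nonneg l
  have hS : 0 < (D : ℝ) + 2 * l + d := by linarith
  have hκ : 0 < κ := by
    by_contra hneg
    have h3 : κ * d ≤ 0 := mul_nonpos_of_nonpos_of_nonneg (not_lt.1 hneg) hd.le
    linarith
  obtain ⟨γ, hγ⟩ : ∃ γ : ℝ, γ = κ / (D + 2 * l + d) := ⟨_, rfl⟩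
  have hγ0 : 0 < γ := by rw [hγ]; positivity
  have hγS : γ * (D + 2 * l + d) = κ := by rw [hγ]; field_simp
  have hγd : 1 < γ * d := by
    rw [hγ, div_mul_eq_mul_div, lt_div_iff₀ hS]
    linarith
  have hk : (k : ℝ) < γ * (D + 2 * l + d) * d := by rw [hγS]; exact h2
  have hφ : ∀ n : ℕ, 1 ≤ n → B ^ 2 * (C * ((n : ℝ) + 1) ^ (-κ)) ≤
      B ^ 2 * C * (n : ℝ) ^ (-(γ * (D + 2 * l + d))) := by
    intro n hn
    rw [hγS, ← mul_assoc]
    refine mul_le_mul_of_nonneg_left ?_ hC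
    have hn0 : (0 : ℝ) < n := by exact_mod_cast hn
    exact Real.rpow_le_rpow_of_nonpos hn0 (by linarith) (by linarith)
  have hball' : ∀ (y : Fin D → ℝ) (ρ : ℝ), 0 < ρ → ρ ≤ 1 →
      μ.real (bset ι y ρ) ≤ max C₁ 0 * ρ ^ d := by
    intro y ρ h3 h4
    refine (hball y ρ h3 h4).trans ?_
    exact mul_le_mul_of_nonneg_right (le_max_left _ _) (Real.rpow_nonneg h3.le _)
  intro ρ hρ
  obtain ⟨δ, N, g1, g2, g3, g4, g5⟩ := few_poly (R := R) (Λ := Λ) (C₀ := B ^ 2 * C)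
    (C₁ := max C₁ 0) hmix' hι.smooth.continuous F.continuous hR hb (by linarith) hl hC
    (le_max_right _ _) hγ0 hd hφ hball' hγd k hk ρ hρ
  exact ⟨δ, N, g1, g2, g3, g4, (hmix' N).mono g5⟩

/-- **Closing, three kinds of mixing.** -/
theorem closable_of_mixing [MeasurableSpace W] [BorelSpace W] {D : ℕ} {ι : W → Fin D → ℝ}
    (hι : IsEmb I ι) {r : ℕ∞} (hr : 1 ≤ r) (F : W ≃ₘ^r⟮I, I⟯ W) (μ : Measure W)
    [IsProbabilityMeasure μ] (hinv : MeasurePreserving F μ μ) (p : W) (hp : ∀ O ∈ 𝓝 p, 0 < μ O)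
    (hmix : (∃ (l : ℕ) (C θ : ℝ), 0 < θ ∧ θ < 1 ∧ ∀ n, MixAt ι l F μ n (C * θ ^ n)) ∨
      (∃ d C₁ : ℝ, 0 < d ∧
        (∀ (x : W) (ρ : ℝ), 0 < ρ → ρ ≤ 1 → μ.real {z | ‖ι z - ι x‖ < ρ} ≤ C₁ * ρ ^ d) ∧
        ∀ k : ℕ, (k : ℕ∞) ≤ r → ∃ (l : ℕ) (C κ : ℝ), D + 2 * l + d < κ * d ∧
          ((k + 1) * (2 * D + 2 * l) : ℝ) < κ * d ∧
          ∀ n : ℕ, MixAt ι l F μ n (C * ((n : ℝ) + 1) ^ (-κ))) ∨
      ∀ k : ℕ, (k : ℕ∞) ≤ r → ∃ l : ℕ, FewMix ι l F μ ((k + 1) * (2 * D + 2 * l))) :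
    Closable I F p := by
  by_cases hq : ∃ q, q ≠ p ∧ ∀ O ∈ 𝓝 q, 0 < μ O
  · obtain ⟨q, hqp, hq⟩ := hq
    refine closable_of_few hι hr F μ hinv p q hqp.symm hp hq fun k hk => ?_
    rcases hmix with ⟨l, C, θ, h0, h1, hmix⟩ | ⟨d, C₁, hd, hball, hmix⟩ | hmix
    · have hnd : ∀ x : W, μ {x} ≠ 1 := by
        intro x hx
        have h2 : μ ({x}ᶜ : Set W) = 0 := by
          rw [measure_compl (measurableSet_singleton x) (measure_ne_top μ _), hx, measure_univ,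
            tsub_self]
        have h3 : ∀ z : W, (∀ O ∈ 𝓝 z, 0 < μ O) → z = x := by
          intro z hz
          by_contra hne
          exact (hz _ (isOpen_compl_singleton.mem_nhds hne)).ne' h2
        exact hqp ((h3 q hq).trans (h3 p hp).symm)
      exact ⟨l, few_of_exp hι hr F μ h0 h1 hmix hnd _⟩
    · obtain ⟨l, C, κ, h1, h2, hmix⟩ := hmix k hk
      refine ⟨l, few_of_power hι hr F μ hd (ball_centre μ hd hball) _ h1 ?_ hmix⟩
      push_cast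
      exact h2
    · obtain ⟨l, hl⟩ := hmix k hk
      exact ⟨l, hl.fewB⟩
  · have hfix := fixed_of_support hι F μ hinv p hq
    intro U hU
    refine ⟨F, @mem_of_mem_nhds _ (crTopology I r) _ _ hU, 1, one_pos, ?_⟩
    rw [Function.iterate_one]
    exact hfix

end Pool.Agent.XN
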